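import Pool.Agent.U191.FK.AJ

/-!
# Injectivity of the rational Abel-Jacobi maps for quotients of products of curves

`𝒱` is a class of smooth projective geometrically irreducible varieties over the field `k` closed
under products (for the problem: all of them, over the algebraic numbers `k ⊆ ℂ`), `C` the Chow groups
with rational coefficients, `H` a Weil cohomology theory with complex coefficients and `D` the Hodge
decompositions (singular cohomology), `A` the rational Abel-Jacobi maps.

Let `X = C_1 × ⋯ × C_n × B`, where `B` has dimension zero and the `C_i` are curves with actions of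
finite groups `G_i`, all irreducible characters of which have values in a number field `K` which is
totally real (for example symmetric and dihedral groups, and all other groups whose elements are
conjugate to their inverses), or imaginary quadratic, or a CM field of degree four. A pair `(V, e)` of
level at most `ℓ` is one of the following: `(X, e)` with `e = ∑ a(γ) [γ]`, where `a` is an element of
the rational group algebra of `G_1 × ⋯ × G_n` which is zero on `H^{p,q}(X)` for `|p - q| > ℓ`; or
`(Y, Δ)`, where `Y` is a quotient of `X`, or a direct summand cut out by an element of the group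
algebra, of Hodge level at most `ℓ`.

**Theorem.** (1) Let `Z` be a variety whose motive is built from motives of level at most one. Then the
rational Abel-Jacobi maps of `Z` are injective in all codimensions.

(2) Let `Y` be a quotient of `X`, or a direct summand of the same dimension which is cut out by an
element of the group algebra, such that `H^{p,q}(Y) = 0` if `|p - q| > 1` and `min (p, q) < c`. Then
the rational Abel-Jacobi maps of `Y` are injective on the homologically trivial cycles of dimension
less than `c`.

(3) Suppose that the rational Abel-Jacobi maps of all products of at most `ℓ` curves are injective.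
Then so are those of all varieties whose motive is built from motives of level at most `ℓ` (and, as in
(2), those of `Y` on the cycles of dimension less than `c`, if `H^{p,q}(Y) = 0` for `|p - q| > ℓ`,
`min (p, q) < c`).
-/

set_option autoImplicit false

open CategoryTheory AlgebraicGeometry

universe u v

namespace Pool.Agent.Results.MP_537ea0_ag.CurveQuotients

open Pool.Agent.H914 Pool.Agent.H914.VarClass Pool.Agent.H914.VarClass.Obj Pool.Agent.W492.BB
  Pool.Agent.TH133 Pool.Agent.U191.EY Pool.Agent.U191.FL

/-- **Injectivity of the rational Abel-Jacobi maps** for varieties built from products of curves with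
actions of finite groups: `ℓ = 1`, or any `ℓ` such that the Abel-Jacobi maps of the products of at
most `ℓ` curves are injective. -/
theorem result {k : Type u} [Field k] {𝒱 : VarClass k} {C : TheoryData.{u, v, 0} 𝒱 ℚ}
    [IsChowProj C] {H : WeilTheoryData.{u, v, 0} C ℂ} [IsWeilProj H]
    {D : ∀ V : 𝒱.Obj, HodgeRing (H.A V)} (hD : IsHodgeTheory H D) (hN : KimuraTheorem H)
    (A : AbelJacobiMaps H) (ℓ : ℕ)
    (hℓ : ℓ = 1 ∨ ∀ W : 𝒱.Obj, IsShortProduct ℓ W → ∀ j, AJInjective A W j) :
    (∀ Z : 𝒱.Obj, IsBuiltOfLevel H D ℓ (gph C (𝟙 Z)) → ∀ m : ℤ, AJInjective A Z m) ∧
      ∀ (B : 𝒱.Obj) (L : List (GCurve 𝒱)) (Y : 𝒱.Obj) (c : ℕ), B.dim = 0 → AreGood H D L →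
        IsCut C B L Y → Y.dim = (prodL B L).dim → HasLevel (D Y) ℓ c →
          ∀ m : ℤ, (Y.dim : ℤ) < m + c → AJInjective A Y m := by
  have hA : ∀ W : 𝒱.Obj, IsShortProduct ℓ W → ∀ j, AJInjective A W j := by
    rcases hℓ with rfl | h
    · exact fun W hW j => ajInjective_short hW j
    · exact h
  exact ⟨fun _ hZ m => ajInjective_of_level hD hN hA hZ m,
    fun _ _ _ _ hB hL hY hdim hl _ hm => ajInjective_of_mixed hD hN hA hB hL hY hdim hl hm⟩

end Pool.Agent.Results.MP_537ea0_ag.CurveQuotients
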