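import Pool.Agent.U672.AJ.Maps

/-!
# Injectivity of the rational Abel-Jacobi maps over `ℚ̄` by cutting and pasting

`D` is the triangulated category of geometric motives over `ℚ̄` with rational coefficients, in the form of its
standard properties (`PasteFacts`). For an object `A` let `CH m A` be the group of the morphisms
`A → ℚ(m)[2m]` whose Hodge realization is zero, and `J m A = Ext¹(ℚ, H^(2m-1)(A)(m))`, the group of
extensions of mixed Hodge structures; the realization in the derived category of mixed Hodge structures gives
the map `aj m : CH m A → J m A` (`AbelJacobi`). For a smooth projective scheme `X` it is the rational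
Abel-Jacobi map of the problem.

**Theorem.** Let `X` be a smooth proper scheme over `ℚ̄`, of any dimension, which can be obtained by cutting and
pasting and by finite free coverings from
* the closed subschemes of affine spaces, of any dimension, defined by binomials and at most one trinomial
  (systems of excess at most one; the *excess* of a system of polynomials is the sum of
  (number of terms - 2) over its members with at least three terms), singular or not,
* all schemes of dimension at most one,
* all smooth proper schemes whose rational Abel-Jacobi maps are injective in all codimensions.
Then the rational Abel-Jacobi maps of `X` are injective in all codimensions. In particular homologically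
trivial cycles of codimension `m` on `X` are torsion if `H^(2m-1)(X, ℚ) = 0`.

The schemes which are cut and pasted need not be smooth or proper, only `X` is. More generally, if the rational
Abel-Jacobi maps are injective for all smooth proper schemes of dimension at most `N`, then this holds with
`N` instead of one: for instance hypersurfaces with at most `N + 2` terms in affine spaces of any
dimension can be used.

The proof: the motive with compact support of a system of excess at most `N` is in the thick
triangulated subcategory generated by the Tate twists of the motives of schemes of dimension at most `N`. Hence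
the motive of `X` is a direct factor of a sum of Tate twists of motives of smooth proper schemes with injective
Abel-Jacobi maps.
-/

set_option autoImplicit false

open CategoryTheory MonoidalCategory AlgebraicGeometry Opposite Pool.Agent.TH137.DG
  Pool.Agent.Y116.UV Pool.Agent.Z125.UN Pool.Agent.U672.SF Pool.Agent.U672.AJ

namespace Pool.Agent.Results.MP_537ea0_ag.CutAndPaste

universe v u w

/-- **Theorem.** (1) Let the rational Abel-Jacobi maps of the smooth proper schemes over `ℚ̄` of dimension at most
one be injective (this is known). If a smooth proper scheme `X` is pasted from systems of excess at most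
one, schemes of dimension at most one and smooth proper schemes with injective Abel-Jacobi maps, then the
Abel-Jacobi maps of `X` are injective in all codimensions. If `coh m` is the cohomology `H^(2m-1)` and it
vanishes for `X`, so that `J m` vanishes, then all homologically trivial cycles of codimension `m` on `X` are
torsion. (2) The same with `N` instead of one. -/
theorem result {C : Type u} [Category.{v} C]
    [MonoidalCategory C] [SymmetricCategory C] [Preadditive C] [Linear ℚ C]
    [Limits.HasZeroObject C] [HasShift C ℤ] [∀ n : ℤ, (shiftFunctor C n).Additive]
    [Pretriangulated C] {D : Motives (AlgebraicClosure ℚ) C} (hD : PasteFacts D)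
    (S : AbelJacobi.{v, u, w} D)
    (coh : ℤ → Cᵒᵖ ⥤ ModuleCat.{w} ℚ)
    (hJ : ∀ m A, Subsingleton ((coh m).obj (op A)) → Subsingleton ((S.J m).obj (op A)))
    (hcurves : ∀ X, SmoothProper X → topologicalKrullDim X.left ≤ (1 : ℕ) →
      IsInjective S (D.M X)) :
    (∀ X, SmoothProper X → Pasted 1 (fun Y => SmoothProper Y ∧ IsInjective S (D.M Y)) X →
      IsInjective S (D.M X) ∧ ∀ m, Subsingleton ((coh m).obj (op (D.M X))) →
        Subsingleton ((S.CH m).obj (op (D.M X)))) ∧
    ∀ N : ℕ, (∀ X, SmoothProper X → topologicalKrullDim X.left ≤ N → IsInjective S (D.M X)) →
      ∀ X, SmoothProper X → Pasted N (fun Y => SmoothProper Y ∧ IsInjective S (D.M Y)) X →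
        IsInjective S (D.M X) ∧ ∀ m, Subsingleton ((coh m).obj (op (D.M X))) →
          Subsingleton ((S.CH m).obj (op (D.M X))) := by
  have key : ∀ N : ℕ,
      (∀ X, SmoothProper X → topologicalKrullDim X.left ≤ N → IsInjective S (D.M X)) →
      ∀ X, SmoothProper X → Pasted N (fun Y => SmoothProper Y ∧ IsInjective S (D.M Y)) X →
        IsInjective S (D.M X) ∧ ∀ m, Subsingleton ((coh m).obj (op (D.M X))) →
          Subsingleton ((S.CH m).obj (op (D.M X))) := by
    intro N h X hp hX
    have h1 : IsInjective S (D.M X) := summand_inj (fun Y hY => hY.2)
      (pasted_summand hD (fun Y hY => hY.1) (fun Y h1 h2 => ⟨h1, h Y h1 h2⟩) X hX hp)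
    refine ⟨h1, fun m hm => ?_⟩
    have h2 := hJ m (D.M X) hm
    exact (h1 m).subsingleton
  exact ⟨key 1 hcurves, key⟩

end Pool.Agent.Results.MP_537ea0_ag.CutAndPaste
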