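import Pool.Agent.U226.FX.Ker

/-!
# The kernels of the rational Abel–Jacobi maps over `ℚ̄` on the varieties `Z × X ^ n`

Let `X` be a smooth projective variety over `ℚ̄` which satisfies the sign conjecture `C⁺` (products of
curves, surfaces, abelian varieties, complete intersections and many others), `b` its total Betti
number, and let `Z` be an ARBITRARY nonempty smooth projective variety over `ℚ̄`. Let `κ (n)` be the
dimension of the kernel of the rational Abel–Jacobi maps of `Z × X ^ n` (all codimensions), a number or
infinity, and `ρ_Z (n)`, `ρ (n)` the ranks of the groups of cycles on `Z × X ^ n` and `X ^ n` modulo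
numerical equivalence. The question is whether all `κ (n)` are zero; the groups of homologically
trivial cycles themselves have infinite dimension in general.

Theorem.
(1) `κ (n) / ρ (n)` and `ρ_Z (n) / ρ (n)` converge for `n → ∞`; the limits `N` and `d` are natural numbers or
infinity (`d > 0` as `Z` is not empty, `d ≤ b(Z)` if `Z` satisfies `C⁺`). `N = 0` if and only if the
Abel–Jacobi maps of all `Z × X ^ n` are injective.
(2) One inequality suffices: if `2 κ (n) < ρ (n)` for one `n ≥ 128 (m + 1) ^ 2 b ^ (2 m + 6)` then the
Abel–Jacobi maps of `Z × X ^ m` are injective; the bound does not depend on `Z`, and for `m = 0` this is a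
criterion for an arbitrary variety `Z` in terms of the products `Z × X ^ n`. If they are not injective for
`Z × X ^ m` then `κ (2 n) ≥ b ^ (2 n) / (2 (n + 1) ^ (b ^ 2))` for all those `n`.
(3) **Finite kernels imply finite-dimensional motives.** If `N` is a number `k`, for example if
`κ (n) ≤ c ρ (n)` for infinitely many `n`, for ONE variety `Z`, then all homologically trivial
correspondences `y` from `X ^ n` to itself satisfy `y ^ (k + 2) = 0`, all homologically trivial cycles
on all `X ^ n` are smash-nilpotent (`α × ⋯ × α = 0`, `k + 2` factors), and the motive of `X` is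
finite-dimensional in the sense of Kimura. So if the motive of one `X` is not finite-dimensional
then, for EVERY `Z`, the kernels for `Z × X ^ n` grow faster than every multiple of `ρ (n)`.

The law for additive functors was applied to the powers of one variety `X` in the starting result
`MP_f4876d_ag.SeparatednessLaw` (the last step of a filtration of Bloch–Beilinson type). New are the
Abel–Jacobi kernels (a statement without a filtration), the factor `Z` without the sign conjecture, the
bounds independent of `Z`, and the explicit exponents `k + 2` in (3).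

The setting. `C` is the category of Chow motives over `ℚ̄` with the correspondences of all degrees as
morphisms, a rigid symmetric monoidal pseudo-abelian category, `T = h(X)`, `tp T n = h(X ^ n)`,
`B = h(Z)`, `𝟙_ C ⟶ B ⊗ tp T n` is `CH^*(Z × X ^ n)_ℚ`; `R` is the Betti cohomology. `AJKernel R` contains the
kernels of the Abel–Jacobi maps, `ker Y Z` for `CH^*(Y × Z)`, with their formal properties: they are
stable under compositions with correspondences and exterior products with a variety (functoriality of
the Abel–Jacobi maps), and the composition of two homologically trivial correspondences has trivial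
Abel–Jacobi invariant (the Abel–Jacobi map sends `α · β` to `cl (α) · AJ (β)`).

Idea of the proof. The functor `Y ↦ ker (1, h(Z) ⊗ Y)` is additive, so that the law (starting library
`N64.AF`) applies; if the limit is a number `k` then `k` successive numerically trivial correspondences act
as zero on the kernels. Let `β` be a class on `Z × X ^ p` with a dual class. For a homologically trivial `y`
the exterior product of `β` and `y²` is in the kernel, hence `β × y^(k + 2)` is zero, and one contracts
with the dual class.
-/

set_option autoImplicit false

open CategoryTheory MonoidalCategory Module Filter Topology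
open Pool.Agent.Y112.SR Pool.Agent.Y112.KD Pool.Agent.N64.AF Pool.Agent.U226.FX
open scoped ENNReal

namespace Pool.Agent.Results.MP_537ea0_ag.KernelLaw

universe v u w

/-- The law for the kernels of the Abel–Jacobi maps on the products of a fixed arbitrary `B` with the
powers of `T`. -/
theorem result {C : Type u} [Category.{v} C] [Preadditive C] [MonoidalCategory C]
    [MonoidalPreadditive C] [SymmetricCategory C] [RightRigidCategory C]
    [Linear ℚ C] [MonoidalLinear ℚ C] [IsIdempotentComplete C]
    {K : Type w} [Field K] [IsAlgClosed K] [Algebra ℚ K] (R : SuperRealisation C K)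
    (T : C) [ExactPairing T T] (h : IsPow ℚ R T) (A : AJKernel R) (B : C) :
    ∃ N d : ℕ∞, RatioTo ℚ T (kerDim A B T) N ∧ RatioTo ℚ T (rankSeq ℚ B T) d ∧
      (N = 0 ↔ ∀ (n : ℕ), ∀ α ∈ A.ker (𝟙_ C) (B ⊗ tp T n), α = 0) ∧
      (d = 0 ↔ ∀ (n : ℕ) (α : 𝟙_ C ⟶ B ⊗ tp T n), NumTriv α) ∧
      (R.CPlus B → d ≤ bt R B) ∧
      (d ≠ 0 → ∀ k : ℕ, N = k →
        (∀ (n : ℕ) (y : End (tp T n)), R.H.map (y : tp T n ⟶ tp T n) = 0 → y ^ (k + 2) = 0) ∧
        (∀ (n : ℕ) (α : 𝟙_ C ⟶ tp T n), R.H.map α = 0 → tpow α (k + 2) = 0) ∧
        Pool.Agent.R905.IsKimuraFinite T) ∧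
      ∀ (m n : ℕ), ∀ α ∈ A.ker (𝟙_ C) (B ⊗ tp T m), α ≠ 0 →
        128 * (m + 1) ^ 2 * bt R T ^ (2 * m + 6) ≤ n →
          (numRank ℚ (tp T n) : ℕ∞) ≤ 2 * kerDim A B T n ∧
          ((bt R T ^ (2 * n) : ℕ) : ℕ∞) ≤
            (2 * (n + 1) ^ (bt R T ^ 2) : ℕ) * kerDim A B T (n + n) :=
  ker_law h A B

end Pool.Agent.Results.MP_537ea0_ag.KernelLaw
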