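import Pool.Agent.U935.AJR.Main

/-!
# Injectivity of the Abel-Jacobi maps: reduction to cycles of large dimension

`𝒱` is a class of smooth proper varieties over a field `k` (for the problem, the smooth projective
varieties over the algebraic numbers) which is closed under products. `C` has the formal properties
of the Chow groups with rational coefficients of these varieties (`IsChowProj`), `H` those of a Weil
cohomology theory with cycle class maps (`IsWeilProj`), and `A` those of the Abel-Jacobi maps
(`AbelJacobi`, `JExact`). `AJInj A X m` says that the Abel-Jacobi map is injective on the
homologically trivial classes of codimension `m` on `X`, with rational coefficients.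

The theorem: for every `n`, the Abel-Jacobi maps are injective in all codimensions for all varieties
of dimension at most `n` if and only if this holds in the codimensions `m` with
`2 m ≤ dim X + 2`. For instance, for varieties of dimension at most three the injectivity in
codimension two suffices, for varieties of dimension at most five the injectivity in codimension at
most three.

Proof in outline: a class of codimension `m` with `2 m > dim X + 2` is the push-forward of a class
`z` on a smooth hypersurface section `f : Z → X`; the Gysin maps `f_*` are injective on
`H^(2m-2)(Z)` and on `H^(2m-3)(Z)` by the theorem of Lefschetz, so `z` is in the kernel of the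
Abel-Jacobi map of `Z` if `f_* z` is in the kernel of that of `X`.
-/

set_option autoImplicit false

namespace Pool.Agent.Results.MP_537ea0_ag.SmallCodimension

open Pool.Agent.H914 Pool.Agent.H914.VarClass Pool.Agent.W492.BB Pool.Agent.U644.BBL
  Pool.Agent.U435.BB Pool.Agent.TH133 Pool.Agent.U935.BBR Pool.Agent.U935.AJR

universe u v w

/-- Assume that the functor `J` is exact, and that cycle classes of dimension less than `dim X / 2`
are supported on smooth hypersurface sections which satisfy the theorem of Lefschetz. Then the
Abel-Jacobi maps are injective in all codimensions for all varieties of dimension at most `n` if and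
only if they are injective in codimension `m` for all varieties `X` of dimension at most `n` and
`2 m ≤ dim X + 2`. -/
theorem result {k : Type u} [Field k] {𝒱 : VarClass k} {C : TheoryData.{u, v, 0} 𝒱 ℚ} {K : Type w}
    [Field K] {H : WeilTheoryData.{u, v, w} C K} [IsChowProj C] [IsWeilProj H] (A : AbelJacobi H)
    (hJ : JExact A) (Amp : ∀ X : 𝒱.Obj, C.A X → Prop)
    (hA : ∀ X : 𝒱.Obj, 2 ≤ X.dim → ∃ D, Amp X D) (hs : HasSections H Amp) (n : ℕ) :
    (∀ X : 𝒱.Obj, X.dim ≤ n → ∀ m : ℕ, AJInj A X m) ↔
      ∀ X : 𝒱.Obj, X.dim ≤ n → ∀ m : ℕ, 2 * m ≤ X.dim + 2 → AJInj A X m :=
  ⟨fun h X hX m _ => h X hX m, small_range hJ Amp hA hs n⟩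

end Pool.Agent.Results.MP_537ea0_ag.SmallCodimension
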